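import Mathlib
import Pool.Agent.Lib_helper27.Final

/-!
Problem MP_f6626d_co: the laws of the areas `A_n` and `A_{n+1}` of uniformly random self-avoiding
polygons of perimeters `2n` and `2n+2` on the square lattice are at total variation distance
`O(n^{-1/4})`.
-/

namespace Pool.Agent.Results.MP_f6626d_co.AreaTVMerging

open Pool.Agent.AreaLaw

/-- The total variation distance between the laws of `A_n` and of `A_{n+1}` is at most
`C n^{-1/4}`. -/
theorem result :
    ∃ C : ℝ, ∀ n : ℕ, 1 ≤ n → ∀ B : Set ℝ,
      |prob (n + 1) B - prob n B| ≤ C * (n : ℝ) ^ (-(1 / 4) : ℝ) :=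
  tv_merge

end Pool.Agent.Results.MP_f6626d_co.AreaTVMerging
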