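import Pool.Agent.Lib_helper40.Kal.Bounded

/-!
Unavoidable k-faces for polytopes whose k-faces lie in boundedly many facets: for all k and M there
is a finite list of k-polytopes such that every polytope of dimension at least k * 2 ^ (k + 1), each
of whose k-faces lies in at most M facets, has a k-face combinatorially equivalent to a member of
the list.
-/

set_option autoImplicit false

namespace Pool.Agent.Lib_helper40.Kept.BoundedQuotients

/-- real `n`-space -/
abbrev Sp (n : ℕ) : Type := EuclideanSpace ℝ (Fin n)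

/-- convex hulls of finite sets -/
def IsPolytope {n : ℕ} (P : Set (Sp n)) : Prop :=
  ∃ S : Finset (Sp n), P = convexHull ℝ (S : Set (Sp n))

/-- the dimension of the affine hull (0 for the empty set) -/
noncomputable def dim {n : ℕ} (P : Set (Sp n)) : ℕ := Module.finrank ℝ (vectorSpan ℝ P)

/-- the poset of faces (with the empty set and `P`) -/
def Faces {n : ℕ} (P : Set (Sp n)) : Set (Set (Sp n)) := {F | IsExposed ℝ P F}

theorem result (k M : ℕ) (hk : 1 ≤ k) :
    ∃ (m : ℕ) (Q : Fin m → Set (Sp k)), (∀ i, IsPolytope (Q i) ∧ dim (Q i) = k) ∧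
      ∀ (n : ℕ) (P : Set (Sp n)), IsPolytope P → k * 2 ^ (k + 1) ≤ dim P →
        (∀ F ∈ Faces P, F.Nonempty → dim F = k →
          {G | G ∈ Faces P ∧ F ⊆ G ∧ dim G + 1 = dim P}.encard ≤ M) →
        ∃ F ∈ Faces P, F.Nonempty ∧ dim F = k ∧
          ∃ i : Fin m, Nonempty (Faces F ≃o Faces (Q i)) :=
  Pool.Agent.Lib_helper40.Kal.mainBounded k M hk

end Pool.Agent.Lib_helper40.Kept.BoundedQuotients
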