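import Pool.Agent.WHS.AREA
import Pool.Agent.WHS.CAND
import Pool.Agent.WHS.CASEA
import Pool.Agent.WHS.CLAIM1
import Pool.Agent.WHS.DIR
import Pool.Agent.WHS.DIST
import Pool.Agent.WHS.FAM
import Pool.Agent.WHS.FINAL
import Pool.Agent.WHS.FUL
import Pool.Agent.WHS.GEO
import Pool.Agent.WHS.LEM2
import Pool.Agent.WHS.MAIN
import Pool.Agent.WHS.ONE
import Pool.Agent.WHS.PAIR
import Pool.Agent.WHS.PIG
import Pool.Agent.WHS.RED
import Pool.Agent.WHS.ROOT
import Pool.Agent.WHS.SERVE
import Pool.Agent.WHS.SRV1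
import Pool.Agent.WHS.SRV2
import Pool.Agent.WHS.START
import Pool.Agent.WHS.START2
import Pool.Agent.WHS.SUPER
import Pool.Agent.WHP.TreeDim

/-!
# MP_c538e3_nt: the sets with uniform exponents above 2 have positive dimension

Paper proof: notes 1592 (helper94, the set of Q1) and 1767 (helper63, the set of Q2) of the team
database, and Pool/Agent/WHS/PAPER.md. The construction builds a tree of integer vectors
`y = (y₀, y₁, y₂)` with small nonzero `y₀ y₂ - y₁²`; a vector of height `Y` has either one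
child or at least `Y ^ (1/10^6)` children, and at most eight steps in a row have one child. A
polynomial is attached to each step, small at the limit point, together with the data which
bound its derivative from below; its root near the limit point is the approximation.
-/

namespace Pool.Agent.Lib_helper40.Kept.PositiveDimensionStar

open Polynomial

/-- The real number `ξ` is algebraic of degree at most two. -/
def AlgDegLeTwo (ξ : ℝ) : Prop :=
  ∃ P : ℤ[X], P ≠ 0 ∧ P.natDegree ≤ 2 ∧ aeval ξ P = 0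

/-- The height of an integer polynomial: the maximum of the absolute values of its
coefficients. -/
def height (P : ℤ[X]) : ℕ := P.support.sup fun i => (P.coeff i).natAbs

/-- The real numbers `w` such that, for every sufficiently large real `H`, there is a nonzero
integer polynomial `P` with `deg P ≤ 2`, `H(P) ≤ H` and `0 < |P(ξ)| ≤ H ^ (-w)`. -/
def admissible (ξ : ℝ) : Set ℝ :=
  {w | ∃ H₀ : ℝ, ∀ H : ℝ, H₀ ≤ H → ∃ P : ℤ[X], P ≠ 0 ∧ P.natDegree ≤ 2 ∧
    (height P : ℝ) ≤ H ∧ 0 < |aeval ξ P| ∧ |aeval ξ P| ≤ H ^ (-w)}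

/-- The uniform exponent `ŵ₂(ξ)`. -/
noncomputable def uniformExponent (ξ : ℝ) : EReal := ⨆ w ∈ admissible ξ, (w : EReal)

/-- The real numbers `w` such that, for every sufficiently large real `H`, there is a real
algebraic number `α` of degree at most two (the root of an irreducible integer polynomial `P` of
degree at most two) with `H(α) = H(P) ≤ H` and `0 < |ξ - α| ≤ H(α)⁻¹ H ^ (-w)`. -/
def admissibleStar (ξ : ℝ) : Set ℝ :=
  {w | ∃ H₀ : ℝ, ∀ H : ℝ, H₀ ≤ H → ∃ (α : ℝ) (P : ℤ[X]), Irreducible P ∧ P.natDegree ≤ 2 ∧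
    aeval α P = 0 ∧ (height P : ℝ) ≤ H ∧ 0 < |ξ - α| ∧
    |ξ - α| ≤ (height P : ℝ)⁻¹ * H ^ (-w)}

/-- The uniform exponent `ŵ₂*(ξ)`. -/
noncomputable def uniformExponentStar (ξ : ℝ) : EReal := ⨆ w ∈ admissibleStar ξ, (w : EReal)

theorem geoStep : WHS.GeoStep :=
  WHS.GEO_thm WHS.PAIR_thm (WHS.CASEA_thm WHS.CLAIM1_thm) (WHS.FAM_thm WHS.CLAIM1_thm)
    (WHS.RED_thm WHS.CLAIM1_thm) WHS.AREA_thm (WHS.DIR_thm WHS.CLAIM1_thm)

theorem oneStep : WHS.OneStep :=
  WHS.ONE_thm geoStep (WHS.CAND_thm WHS.LEM2_thm) WHS.FUL_thm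

theorem servedStep : WHS.ServedStep :=
  WHS.SERVE_thm WHS.DIST_thm (WHS.SRV1_thm WHS.DIST_thm) (WHS.SRV2_thm WHS.DIST_thm WHS.PIG_thm)

/-- The sets of the real numbers `ξ`, not algebraic of degree at most two, with `ŵ₂*(ξ) > 2`,
respectively `ŵ₂(ξ) > 2`, have positive Hausdorff dimension. -/
theorem result :
    0 < dimH {ξ : ℝ | ¬ AlgDegLeTwo ξ ∧ 2 < uniformExponentStar ξ} ∧
      0 < dimH {ξ : ℝ | ¬ AlgDegLeTwo ξ ∧ 2 < uniformExponent ξ} :=
  WHS.MAIN_thm WHS.ROOT_thm (WHS.FINAL_thm WHP.treeDim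
    (WHS.START2_thm (WHS.START_thm WHS.LEM2_thm) oneStep) (WHS.SUPER_thm oneStep servedStep))

end Pool.Agent.Lib_helper40.Kept.PositiveDimensionStar
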